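import Pool.Agent.Lib.MP_db815c_an.Par
import Pool.Agent.Lib.MP_db815c_an.Symbol

set_option autoImplicit false

open scoped ENNReal
open Finset

noncomputable section

namespace Pool.Agent.Results.MP_db815c_an.SmoothnessThreshold

section
variable {X : Type} [NormedAddCommGroup X] [InnerProductSpace ℂ X] [CompleteSpace X]

/-- The polynomial multiples of `a` are dense. -/
def IsOuter (e : ℕ → X) (a : X) : Prop :=
  Dense (Submodule.span ℂ
    {x : X | ∃ k : ℕ, ∀ n : ℕ, inner ℂ (e n) x = if k ≤ n then inner ℂ (e (n - k)) a else 0} : Set X)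

/-- The Fourier coefficients of the essentially bounded functions on the circle. -/
def IsSymbol (c : ℤ → ℂ) : Prop :=
  ∃ φ : AddCircle (1 : ℝ) → ℂ,
    MeasureTheory.MemLp φ ⊤ AddCircle.haarAddCircle ∧ ∀ n : ℤ, c n = fourierCoeff φ n

/-- Toeplitz operators with essentially bounded symbols. -/
def toeplitz (e : ℕ → X) : Set (X →L[ℂ] X) :=
  {T | ∃ c : ℤ → ℂ, IsSymbol c ∧ ∀ i j : ℕ, inner ℂ (e i) (T (e j)) = c ((i : ℤ) - (j : ℤ))}

/-- The norm closure of the star algebra generated by a set. -/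
def cstar (Y : Type) [CStarAlgebra Y] (s : Set Y) : Set Y := closure (StarAlgebra.adjoin ℂ s : Set Y)

/-- The Toeplitz algebra. -/
def toeplitzAlgebra (e : ℕ → X) : Set (X →L[ℂ] X) := cstar (X →L[ℂ] X) (toeplitz e)

/-- Taylor coefficients of the Cauchy integral of `conj b * f`. -/
def coanalytic (e : ℕ → X) (b f : X) (i : ℕ) : ℂ :=
  ∑' k : ℕ, starRingEnd ℂ (inner ℂ (e k) b) * inner ℂ (e (i + k)) f

/-- `A f` is the product of `g` and the Cauchy integral of `conj h * f`, for every `f`. -/
def IsProduct (e : ℕ → X) (g h : X) (A : X →L[ℂ] X) : Prop :=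
  ∀ (f : X) (m : ℕ), inner ℂ (e m) (A f)
    = ∑ i ∈ Finset.range (m + 1), inner ℂ (e (m - i)) g * coanalytic e h f i

/-- The Dirichlet-type space of order `β`. -/
def InDirichlet (e : ℕ → X) (β : ℝ) (g : X) : Prop :=
  Summable fun n : ℕ => ((n : ℝ) + 1) ^ (2 * β) * ‖inner ℂ (e n) g‖ ^ 2

/-- The weighted Wiener algebra of order `α`. -/
def InWiener (e : ℕ → X) (α : ℝ) (h : X) : Prop :=
  Summable fun n : ℕ => ((n : ℝ) + 1) ^ α * ‖inner ℂ (e n) h‖

end

/-- The Hardy space, as square summable Taylor coefficient sequences. -/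
abbrev H2 : Type := lp (fun _ : ℕ => ℂ) 2

/-- The monomials. -/
def mono (j : ℕ) : H2 := lp.single 2 j 1

lemma mono_eq : mono = Pool.Agent.Lib.MP_db815c_an.e := rfl

open Pool.Agent.Lib.MP_db815c_an in
lemma isOuter_of (a : H2)
    (ha : ∀ x : H2, (∀ k, inner ℂ ((L ^ k) x) a = 0) → (x : ℕ → ℂ) = 0) : IsOuter e a := by
  rw [IsOuter, Submodule.dense_iff_topologicalClosure_eq_top,
    Submodule.topologicalClosure_eq_top_iff, Submodule.eq_bot_iff]
  intro x hx
  apply lp.ext
  refine ha x fun k => ?_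
  rw [← inner_conj_symm, inner_L_pow_right]
  rw [(Submodule.mem_orthogonal _ _).1 hx, map_zero]
  refine Submodule.subset_span ⟨k, fun n => ?_⟩
  rw [← inner_conj_symm, ← inner_L_pow_right, inner_conj_symm]
  split_ifs with hk
  · obtain ⟨d, rfl⟩ := Nat.exists_eq_add_of_le hk
    have : (L ^ k) (e (k + d)) = e d := by
      refine vec_ext fun i => ?_
      rw [inner_e_left, L_pow_apply, e_apply, inner_e_left, e_apply]
      have : (i + k = k + d) ↔ i = d := by omega
      simp only [this]
    rw [this, Nat.add_sub_cancel_left]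
  · have : (L ^ k) (e n) = 0 := by
      refine vec_ext fun i => ?_
      rw [inner_e_left, L_pow_apply, e_apply, if_neg (by omega), inner_zero_right]
    rw [this, inner_zero_left]

open Pool.Agent.Lib.MP_db815c_an in
lemma coanalytic_eq (b f : H2) (i : ℕ) : coanalytic e b f i = inner ℂ b ((L ^ i) f) := by
  rw [coanalytic, lp.inner_eq_tsum]
  refine tsum_congr fun n => ?_
  rw [L_pow_apply, RCLike.inner_apply', add_comm, inner_e_left, inner_e_left]

open Pool.Agent.Lib.MP_db815c_an in
lemma isProduct_of (a b : H2) (B : H2 →L[ℂ] H2) (hB : ∀ x y, inner ℂ y (B x) -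
    inner ℂ (L y) (B (L x)) = inner ℂ y a * inner ℂ b x) : IsProduct e a b B := by
  intro f m
  induction m generalizing f with
  | zero =>
    have := hB f (e 0)
    rw [L_e_zero, inner_zero_left, sub_zero] at this
    rw [this]
    simp [coanalytic_eq]
  | succ m ih =>
    have := hB f (e (m + 1))
    rw [L_e_succ, sub_eq_iff_eq_add, ih] at this
    rw [this, sum_range_succ' _ (m + 1), add_comm (_ * _)]
    congr 1
    · refine sum_congr rfl fun i _ => ?_
      rw [coanalytic_eq, coanalytic_eq, pow_succ, mul_apply_eq_comp, Nat.add_sub_add_right]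
    · simp [coanalytic_eq]

open Pool.Agent.Lib.MP_db815c_an in
lemma step_of (a b : H2) (B : H2 →L[ℂ] H2) (hB : IsProduct e a b B) (i j : ℕ) :
    inner ℂ (e (i + 1)) (B (e (j + 1))) = inner ℂ (e i) (B (e j)) +
      (a : ℕ → ℂ) (i + 1) * starRingEnd ℂ ((b : ℕ → ℂ) (j + 1)) := by
  rw [hB, hB, sum_range_succ' _ (i + 1)]
  congr 1
  · refine sum_congr rfl fun l _ => ?_
    rw [coanalytic_eq, coanalytic_eq, pow_succ, mul_apply_eq_comp, L_e_succ,
      Nat.add_sub_add_right]
  · rw [coanalytic_eq, pow_zero, one_apply_eq_self, inner_e_right, Nat.sub_zero, inner_e_left]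

theorem result (α β : ℝ) (hα : 0 ≤ α) (hβ : 0 ≤ β) :
    (∀ g h : H2, IsOuter mono g → IsOuter mono h → InDirichlet mono β g → InWiener mono α h →
      ∀ A : H2 →L[ℂ] H2, IsProduct mono g h A → A ∈ toeplitzAlgebra mono) ↔ 1 / 2 ≤ α + β := by
  rw [mono_eq]
  constructor
  · intro hall
    by_contra hc
    open Pool.Agent.Lib.MP_db815c_an in
    obtain ⟨P, h1, h2⟩ := Par.exists_prm hα hβ (not_le.mp hc)
    open Pool.Agent.Lib.MP_db815c_an in
    refine Par.not_loc_A (loc_of_mem_closure_adjoin (s := toeplitz e) ?_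
      (hall Par.g Par.h (isOuter_of _ Par.cyclic_g) (isOuter_of _ Par.cyclic_h) ?_ ?_ Par.A
        (isProduct_of _ _ _ Par.delta_A)))
    · rintro T ⟨c, -, hT⟩
      open Pool.Agent.Lib.MP_db815c_an in
      refine ext_e fun j => vec_ext fun i => ?_
      open Pool.Agent.Lib.MP_db815c_an in
      rw [mul_apply_eq_comp, mul_apply_eq_comp, inner_L_right, S_e, S_e, hT, hT]
      congr 1
      push_cast
      ring
    · open Pool.Agent.Lib.MP_db815c_an in
      simpa only [InDirichlet, inner_e_left] using Par.summable_gw hβ h2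
    · open Pool.Agent.Lib.MP_db815c_an in
      simpa only [InWiener, inner_e_left] using Par.summable_h hα h1
  · intro hc a b _ _ ha hb B hB
    open Pool.Agent.Lib.MP_db815c_an in
    simp only [InDirichlet, InWiener, inner_e_left] at ha hb
    open Pool.Agent.Lib.MP_db815c_an in
    refine mem_of_smooth (T := (StarAlgebra.adjoin ℂ (toeplitz e)).topologicalClosure)
      (StarSubalgebra.isClosed_topologicalClosure _) (fun C hC => ?_) a b
      (summable_K a b hα hβ hc ha hb) B (step_of a b B hB)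
    open Pool.Agent.Lib.MP_db815c_an in
    obtain ⟨φ, h1, h2⟩ := exists_symbol C hC
    exact StarSubalgebra.le_topologicalClosure _
      (StarAlgebra.subset_adjoin ℂ _ ⟨fourierCoeff φ, ⟨φ, h1, fun _ => rfl⟩, h2⟩)

end Pool.Agent.Results.MP_db815c_an.SmoothnessThreshold
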